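import Pool.Agent.W5h69.FM.Core
import Pool.Agent.W5h69.FM.Dual
import Pool.Agent.W5h69.FM.MP
import Pool.Agent.W5h69.FM.BG

/-!
# Mapping-class-invariant measurable forms for `U(1)` in every genus (MP_d52947_gt)

For `G = U(1)` and genus `g` the character variety is `T^g × T^g`, `T = ℝ/ℤ`, and the mapping class
group acts through `Sp(2g,ℤ)`.  Every invariant measurable form is almost everywhere a constant
multiple of a power of the symplectic form.
-/

open MeasureTheory

namespace Pool.Agent.Results.MP_d52947_gt.CircleGroup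

open Pool.Agent.W5h69.FM (To Vr Form InvUnder IsPower)

/-- Q1 for `G = U(1)` in every genus. -/
theorem result :
    ∀ (g : ℕ) (ι : Type) [Fintype ι] [DecidableEq ι]
      (α : To g × To g → Form g ι), (∀ v, Measurable fun p => α p v) →
      (∀ A ∈ Matrix.symplecticGroup (Fin g) ℤ, InvUnder A α) →
      IsPower (1 : Matrix (Fin g) (Fin g) ℝ) α := by
  intro g ι _ _ α hm hSp
  obtain ⟨W, hB, hS⟩ := Pool.Agent.W5h69.FM.bg g
  rw [← hB]
  exact Pool.Agent.W5h69.FM.core Pool.Agent.W5h69.FM.dual Pool.Agent.W5h69.FM.mp W α hm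
    (hSp _ (Pool.Agent.W5h69.FM.u1_mem g)) (hSp _ (Pool.Agent.W5h69.FM.u2_mem g))
    fun i => hSp _ (hS i)

end Pool.Agent.Results.MP_d52947_gt.CircleGroup
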