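import Pool.Agent.W5h69.FU.Core

/-!
# Mapping-class-invariant measurable forms in genus one (MP_d52947_gt)

For a compact connected Lie group `G` with maximal torus `T = ℝ^r/ℤ^r` and Weyl group `W` the
component of the trivial representation of `Hom(π_1(torus), G)/G` is `(T × T)/W`; its measurable
forms are the `W`-invariant measurable forms on `T × T`, and the mapping class group `SL(2,ℤ)` acts
through `T ⊗ ℤ²`.

If the centre of `G` has dimension at most one (for example `G` semisimple or `G = U(n)`), every
invariant measurable form is almost everywhere an element of the algebra generated by the constants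
and the forms `ω_B`, `B` an invariant inner product.
-/

open MeasureTheory

namespace Pool.Agent.Results.MP_d52947_gt.GenusOne

open Pool.Agent.W5h69.FM (To Vr Form InvUnder blockSL blockW)
open Pool.Agent.W5h69.FU (Weyl IsGenerated)

/-- Q1 in genus one for `G` with centre of dimension at most one. -/
theorem result :
    ∀ (r : ℕ) (W : Weyl r) (ι : Type) [Fintype ι] [DecidableEq ι]
      (α : To r × To r → Form r ι), (∀ v, Measurable fun p => α p v) →
      (∀ M : Matrix (Fin 2) (Fin 2) ℤ, M.det = 1 → InvUnder (blockSL M) α) →
      (∀ i ∉ W.Z, InvUnder (blockW (W.S i)) α) → IsGenerated W α := by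
  intro r W ι _ _ α hm hSL hW
  exact Pool.Agent.W5h69.FU.core W α hm (hSL _ (by simp [Matrix.det_fin_two]))
    (hSL _ (by simp [Matrix.det_fin_two])) (hSL _ (by simp [Matrix.det_fin_two])) hW

end Pool.Agent.Results.MP_d52947_gt.GenusOne
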